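import Mathlib

/-!
# Weighted edge ideals of trees and Cohen-Macaulay rings
-/

set_option autoImplicit false

namespace Pool.Agent.Helper48.WTree

open MvPolynomial IsLocalRing

/-- A local ring (used below for Noetherian rings) is Cohen-Macaulay if its maximal ideal contains a
regular sequence whose length is the Krull dimension of the ring. -/
def IsCMLocal (A : Type*) [CommRing A] [IsLocalRing A] : Prop :=
  ∃ rs : List A, (∀ r ∈ rs, r ∈ maximalIdeal A) ∧ RingTheory.Sequence.IsRegular A rs ∧
    (rs.length : WithBot ℕ∞) = ringKrullDim A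

/-- A commutative ring is Cohen-Macaulay if it is Noetherian and all its localisations at maximal
ideals are Cohen-Macaulay local rings. -/
def IsCM (A : Type*) [CommRing A] : Prop :=
  IsNoetherianRing A ∧ ∀ (P : Ideal A) [P.IsMaximal], IsCMLocal (Localization.AtPrime P)

/-- The weighted edge ideal `((uv)^ω(uv) : uv an edge of G)` in `K[V]`. -/
noncomputable def edgeIdeal {V : Type*} (G : SimpleGraph V) (ω : Sym2 V → ℕ) (K : Type*) [Field K] :
    Ideal (MvPolynomial V K) :=
  Ideal.span {f | ∃ u v : V, G.Adj u v ∧ f = (X u * X v) ^ ω s(u, v)}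

/-- Admissible weighted trees: a tree with positive integer edge weights having a perfect matching
`{x i, y i}` with every `y i` a leaf, such that, with `m i = ω (x i, y i)` and
`ω i j = ω (x i, x j)`, the two numerical conditions of the problem hold. -/
structure Admissible {V : Type*} (G : SimpleGraph V) (ω : Sym2 V → ℕ) : Prop where
  isTree : G.IsTree
  pos : ∀ e ∈ G.edgeSet, 0 < ω e
  matching : ∃ (t : ℕ) (x y : Fin t → V),
    Function.Bijective (Sum.elim x y) ∧
    (∀ i, G.Adj (x i) (y i)) ∧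
    (∀ i v, G.Adj (y i) v → v = x i) ∧
    (∀ i j, G.Adj (x i) (x j) → 2 * ω s(x i, x j) ≤ min (ω s(x i, y i)) (ω s(x j, y j))) ∧
    (∀ i j k, i ≠ k → G.Adj (x i) (x j) → G.Adj (x j) (x k) →
      ω s(x i, x j) ≠ ω s(x j, x k) ∧
      (ω s(x i, x j) < ω s(x j, x k) →
        (ω s(x i, x j) : ℤ) *
            ⌈(ω s(x j, x k) : ℚ) / ((ω s(x j, x k) : ℚ) - (ω s(x i, x j) : ℚ))⌉ ≤
          (ω s(x i, y i) : ℤ) ∧
        (ω s(x j, x k) : ℤ) *
            (⌈(ω s(x j, x k) : ℚ) / ((ω s(x j, x k) : ℚ) - (ω s(x i, x j) : ℚ))⌉ - 2) ≤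
          (ω s(x k, y k) : ℤ)))

end Pool.Agent.Helper48.WTree
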