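import Mathlib

/-!
# Regular sequences and associated primes

If a Noetherian local ring has a regular sequence of length `r` on a finite module `M`, then every
associated prime of `M` is the first term of a strict chain of primes of length `r`.
-/

set_option autoImplicit false

namespace Pool.Agent.Helper48.WTree

open RingTheory.Sequence IsLocalRing Pointwise

/-- Length of regular sequences and chains of primes starting at an associated prime. -/
theorem exists_chain {A : Type*} [CommRing A] [IsLocalRing A] [IsNoetherianRing A] (rs : List A) :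
    ∀ (M : Type*) [AddCommGroup M] [Module A M] [Module.Finite A M],
      (∀ r ∈ rs, r ∈ maximalIdeal A) → IsWeaklyRegular M rs → ∀ P : Ideal A,
      IsAssociatedPrime P M →
      ∃ s : LTSeries (PrimeSpectrum A), s.length = rs.length ∧ s.head.asIdeal = P := by
  induction rs with
  | nil =>
    intro M _ _ _ _ _ P hP
    exact ⟨RelSeries.singleton _ ⟨P, hP.isPrime⟩, rfl, rfl⟩
  | cons r rs ih =>
    intro M _ _ _ hm h P hP
    obtain ⟨hreg, hrest⟩ := (isWeaklyRegular_cons_iff M r rs).1 h
    obtain ⟨hprime, u, hu⟩ := isAssociatedPrime_iff.1 hP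
    have hmem : ∀ a : A, a ∈ P ↔ a • u = 0 := by
      intro a; rw [hu, Submodule.mem_colon_singleton, Submodule.mem_bot]
    have hu0 : u ≠ 0 := by
      rintro rfl
      exact hprime.ne_top ((Ideal.eq_top_iff_one _).2 ((hmem 1).2 (smul_zero _)))
    have hrP : r ∉ P := by
      intro hr
      apply hu0
      apply hreg
      simp only [smul_zero]
      exact (hmem r).1 hr
    -- the submodule killed by `P`
    let U : Submodule A M := Submodule.torsionBySet A M (P : Set A)
    have hU : ∀ v, v ∈ U ↔ ∀ p ∈ P, p • v = 0 := by
      intro v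
      rw [Submodule.mem_torsionBySet_iff]
      exact ⟨fun h p hp => h ⟨p, hp⟩, fun h p => h p.1 p.2⟩
    have huU : u ∈ U := (hU u).2 (fun p hp => (hmem p).1 hp)
    have hnot : ¬ (∀ v ∈ U, v ∈ r • (⊤ : Submodule A M)) := by
      intro hcon
      have hle : U ≤ maximalIdeal A • U := by
        intro v hv
        obtain ⟨w, -, rfl⟩ := hcon v hv
        refine Submodule.smul_mem_smul (hm r (by simp)) ?_
        rw [hU]
        intro p hp
        apply hreg
        simp only [smul_zero]
        have := (hU _).1 hv p hp
        rw [smul_comm]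
        exact this
      have hbot := Submodule.eq_bot_of_le_smul_of_le_jacobson_bot (maximalIdeal A) U
        (IsNoetherian.noetherian U) hle (maximalIdeal_le_jacobson ⊥)
      rw [hbot, Submodule.mem_bot] at huU
      exact hu0 huU
    push Not at hnot
    obtain ⟨v, hvU, hvr⟩ := hnot
    have hv0 : (Submodule.Quotient.mk v : QuotSMulTop r M) ≠ 0 := by
      rw [Ne, Submodule.Quotient.mk_eq_zero]; exact hvr
    obtain ⟨Q, hQ, hle⟩ := exists_le_isAssociatedPrime_of_isNoetherianRing A _ hv0
    have hPQ : P ≤ Q := by
      intro p hp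
      apply hle
      rw [Submodule.mem_colon_singleton, Submodule.mem_bot, ← Submodule.Quotient.mk_smul,
        (hU v).1 hvU p hp, Submodule.Quotient.mk_zero]
    have hrQ : r ∈ Q := by
      apply hle
      rw [Submodule.mem_colon_singleton, Submodule.mem_bot, ← Submodule.Quotient.mk_smul,
        Submodule.Quotient.mk_eq_zero]
      exact Submodule.smul_mem_pointwise_smul v r ⊤ trivial
    obtain ⟨s, hs1, hs2⟩ := ih (QuotSMulTop r M) (fun x hx => hm x (by simp [hx])) hrest Q hQ
    refine ⟨s.cons ⟨P, hprime⟩ ?_, ?_, ?_⟩
    · show (⟨P, hprime⟩ : PrimeSpectrum A) < s.head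
      rw [← PrimeSpectrum.asIdeal_lt_asIdeal, hs2]
      exact lt_of_le_of_ne hPQ (by rintro rfl; exact hrP hrQ)
    · simp [hs1]
    · simp

end Pool.Agent.Helper48.WTree
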