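import Mathlib
import Pool.Agent.Helper48.WTree.Defs

/-!
# The counterexample graph
-/

set_option autoImplicit false

namespace Pool.Agent.Helper48.WTree

open Sum

/-- Vertices: `inl i` is `x i`, `inr i` is `y i`. -/
abbrev VV : Type := Fin 4 ⊕ Fin 4

/-- Adjacency of the whiskered path with four spine vertices. -/
def adjB : VV → VV → Bool
  | inl i, inl j => i.val + 1 == j.val || j.val + 1 == i.val
  | inl i, inr j => i == j
  | inr i, inl j => i == j
  | inr _, inr _ => false

/-- The whiskered path with four spine vertices. -/
def exG : SimpleGraph VV where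
  Adj u v := adjB u v = true
  symm := ⟨by decide⟩
  loopless := ⟨by decide⟩

instance : DecidableRel exG.Adj := fun u v => inferInstanceAs (Decidable (adjB u v = true))

/-- The weights of the whiskers. -/
def mm : Fin 4 → ℕ
  | 0 => 8
  | 1 => 8
  | 2 => 6
  | 3 => 6

/-- The weight function: spine weights `4, 2, 3`. -/
def wt : VV → VV → ℕ
  | inl i, inl j => if i.val + j.val = 1 then 4 else if i.val + j.val = 3 then 2 else 3
  | inl i, inr _ => mm i
  | inr _, inl j => mm j
  | inr _, inr _ => 1

lemma wt_symm : ∀ u v, wt u v = wt v u := by decide

/-- The weight function on unordered pairs. -/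
def exω (e : Sym2 VV) : ℕ := Sym2.lift ⟨wt, wt_symm⟩ e

@[simp] lemma exω_mk (u v : VV) : exω s(u, v) = wt u v := rfl

lemma exG_connected : exG.Connected := by
  have h1 : ∀ v, exG.Reachable (inl 0) v := by
    have a01 : exG.Adj (inl 0) (inl 1) := by decide
    have a12 : exG.Adj (inl 1) (inl 2) := by decide
    have a23 : exG.Adj (inl 2) (inl 3) := by decide
    have h0 : exG.Reachable (inl 0) (inl 0) := SimpleGraph.Reachable.refl _
    have h1 : exG.Reachable (inl 0) (inl 1) := a01.reachable
    have h2 : exG.Reachable (inl 0) (inl 2) := h1.trans a12.reachable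
    have h3 : exG.Reachable (inl 0) (inl 3) := h2.trans a23.reachable
    have hx : ∀ i, exG.Reachable (inl 0) (inl i) := by
      intro i
      fin_cases i
      · exact h0
      · exact h1
      · exact h2
      · exact h3
    rintro (i | i)
    · exact hx i
    · refine (hx i).trans (SimpleGraph.Adj.reachable ?_)
      show adjB (inl i) (inr i) = true
      simp [adjB]
  exact ⟨fun u v => (h1 u).symm.trans (h1 v)⟩

lemma exG_isTree : exG.IsTree := by
  rw [SimpleGraph.isTree_iff_connected_and_card]
  refine ⟨exG_connected, ?_⟩
  rw [Nat.card_eq_fintype_card, Nat.card_eq_fintype_card]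
  decide

lemma ex_admissible : Admissible exG exω where
  isTree := exG_isTree
  pos := by
    intro e
    induction e using Sym2.ind with
    | _ u v =>
      rw [SimpleGraph.mem_edgeSet, exω_mk]
      revert u v
      decide
  matching := by
    refine ⟨4, inl, inr, ?_, ?_, ?_, ?_, ?_⟩
    · have : Sum.elim (inl : Fin 4 → VV) (inr : Fin 4 → VV) = id := by
        funext u; cases u <;> rfl
      rw [this]; exact Function.bijective_id
    · decide
    · decide
    · simp only [exω_mk]; decide
    · intro i j k hik hij hjk
      simp only [exω_mk]
      have hi : i = 0 ∨ i = 1 ∨ i = 2 ∨ i = 3 := by fin_cases i <;> simp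
      have hj : j = 0 ∨ j = 1 ∨ j = 2 ∨ j = 3 := by fin_cases j <;> simp
      have hk : k = 0 ∨ k = 1 ∨ k = 2 ∨ k = 3 := by fin_cases k <;> simp
      rcases hi with rfl | rfl | rfl | rfl <;> rcases hj with rfl | rfl | rfl | rfl <;>
        first
          | exact absurd hij (by decide)
          | (rcases hk with rfl | rfl | rfl | rfl <;>
              first
                | exact absurd hjk (by decide)
                | exact absurd rfl hik
                | (refine ⟨by decide, fun h => ?_⟩
                   first
                     | exact absurd h (by decide)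
                     | (simp only [wt, mm]; norm_num)))

end Pool.Agent.Helper48.WTree
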