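import Mathlib
import Pool.Agent.Helper48.WTree.Graph

/-!
# Powers of monomial ideals and the witness
-/

set_option autoImplicit false
set_option linter.unusedSectionVars false

namespace Pool.Agent.Helper48.WTree

open MvPolynomial Sum

section general

variable {σ J : Type} [Fintype J] [DecidableEq J] {K : Type*} [Field K]

/-- The monomial ideal with generators indexed by `J`. -/
noncomputable def monIdeal (K : Type*) [Field K] (g : J → σ →₀ ℕ) : Ideal (MvPolynomial σ K) :=
  Ideal.span (Set.range fun j => monomial (g j) (1 : K))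

/-- Exponents of products of `n` generators. -/
def expSet (g : J → σ →₀ ℕ) (n : ℕ) : Set (σ →₀ ℕ) :=
  {e | ∃ k : J → ℕ, ∑ j, k j = n ∧ e = ∑ j, k j • g j}

lemma pow_le_monomials (g : J → σ →₀ ℕ) (n : ℕ) :
    (monIdeal K g) ^ n ≤ Ideal.span ((fun e => monomial e (1 : K)) '' expSet g n) := by
  induction n with
  | zero =>
    rw [pow_zero, Ideal.one_eq_top]
    refine le_of_eq (Eq.symm ?_)
    rw [Ideal.eq_top_iff_one]
    refine Ideal.subset_span ⟨0, ⟨fun _ => 0, by simp, by simp⟩, rfl⟩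
  | succ n ih =>
    rw [pow_succ]
    refine (Ideal.mul_mono_left ih).trans ?_
    rw [monIdeal, Ideal.span_mul_span']
    rw [Ideal.span_le]
    rintro _ ⟨_, ⟨e, ⟨k, hk, rfl⟩, rfl⟩, _, ⟨j, rfl⟩, rfl⟩
    refine Ideal.subset_span ⟨∑ i, k i • g i + g j, ⟨k + Pi.single j 1, ?_, ?_⟩, ?_⟩
    · simp [Finset.sum_add_distrib, hk]
    · simp only [Pi.add_apply, add_smul, Finset.sum_add_distrib]
      congr 1
      rw [Finset.sum_eq_single j]
      · simp
      · intro b _ hb; simp [hb]
      · intro h; exact absurd (Finset.mem_univ j) h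
    · simp [monomial_mul]

lemma monomial_mem_pow (g : J → σ →₀ ℕ) (n : ℕ) (c : σ →₀ ℕ) (k : J → ℕ) (hk : ∑ j, k j = n)
    (h : ∑ j, k j • g j ≤ c) : monomial c (1 : K) ∈ (monIdeal K g) ^ n := by
  obtain ⟨d, rfl⟩ := exists_add_of_le h
  have h1 : monomial (∑ j, k j • g j + d) (1 : K) =
      (∏ j, (monomial (g j) (1 : K)) ^ k j) * monomial d 1 := by
    have : ∏ j, (monomial (g j) (1 : K)) ^ k j = monomial (∑ j, k j • g j) (1 : K) := by
      rw [monomial_sum_one]
      refine Finset.prod_congr rfl fun j _ => ?_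
      rw [monomial_pow, one_pow]
    rw [this, monomial_mul, one_mul]
  rw [h1, ← hk, ← Finset.prod_pow_eq_pow_sum]
  refine Ideal.mul_mem_right _ _ (Ideal.prod_mem_prod fun j _ => Ideal.pow_mem_pow ?_ _)
  exact Ideal.subset_span ⟨j, rfl⟩

end general

/-! ### The seven generators -/

/-- First end of the edges. -/
def eu : Fin 7 → VV
  | 0 => inl 0 | 1 => inl 1 | 2 => inl 2 | 3 => inl 3 | 4 => inl 0 | 5 => inl 1 | 6 => inl 2
/-- Second end of the edges. -/
def ev : Fin 7 → VV
  | 0 => inr 0 | 1 => inr 1 | 2 => inr 2 | 3 => inr 3 | 4 => inl 1 | 5 => inl 2 | 6 => inl 3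

/-- Exponents of the generators. -/
noncomputable def gg (j : Fin 7) : VV →₀ ℕ :=
  wt (eu j) (ev j) • (Finsupp.single (eu j) 1 + Finsupp.single (ev j) 1)

lemma gen_eq (K : Type*) [Field K] (u v : VV) (n : ℕ) :
    ((X u * X v : MvPolynomial VV K)) ^ n =
      monomial (n • (Finsupp.single u 1 + Finsupp.single v 1)) 1 := by
  rw [X, X, monomial_mul, monomial_pow, one_mul, one_pow]

lemma edge_cases : ∀ u v : VV, exG.Adj u v → ∃ j : Fin 7, (u = eu j ∧ v = ev j) ∨
    (u = ev j ∧ v = eu j) := by decide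

lemma edge_adj : ∀ j : Fin 7, exG.Adj (eu j) (ev j) := by decide

lemma edgeIdeal_eq (K : Type*) [Field K] : edgeIdeal exG exω K = monIdeal K gg := by
  apply le_antisymm
  · rw [edgeIdeal, Ideal.span_le]
    rintro _ ⟨u, v, h, rfl⟩
    rw [exω_mk, gen_eq]
    obtain ⟨j, ⟨rfl, rfl⟩ | ⟨rfl, rfl⟩⟩ := edge_cases u v h
    · exact Ideal.subset_span ⟨j, rfl⟩
    · refine Ideal.subset_span ⟨j, ?_⟩
      simp only [gg]
      rw [wt_symm, add_comm]
  · rw [monIdeal, Ideal.span_le]
    rintro _ ⟨j, rfl⟩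
    refine Ideal.subset_span ⟨eu j, ev j, edge_adj j, ?_⟩
    rw [exω_mk, gen_eq]
    rfl

/-- The exponents of the witness. -/
def en : VV → ℕ
  | inl 0 => 8 | inl 1 => 9 | inl 2 => 9 | inl 3 => 8
  | inr 0 => 7 | inr 1 => 0 | inr 2 => 0 | inr 3 => 5

/-- The exponent of the witness. -/
noncomputable def ew : VV →₀ ℕ := Finsupp.equivFunOnFinite.symm en

lemma ew_apply (v : VV) : ew v = en v := rfl

lemma gg_apply (j : Fin 7) (v : VV) :
    gg j v = wt (eu j) (ev j) * ((if eu j = v then 1 else 0) + (if ev j = v then 1 else 0)) := by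
  simp only [gg, Finsupp.smul_apply, Finsupp.add_apply, Finsupp.single_apply, smul_eq_mul]

/-- The numerical values of the generators. -/
def gn : Fin 7 → VV → ℕ := fun j v =>
  wt (eu j) (ev j) * ((if eu j = v then 1 else 0) + (if ev j = v then 1 else 0))

lemma sum_gg_apply (k : Fin 7 → ℕ) (v : VV) :
    (∑ j, k j • gg j) v = ∑ j, k j * gn j v := by
  rw [Finsupp.finsetSum_apply]
  refine Finset.sum_congr rfl fun j _ => ?_
  rw [Finsupp.smul_apply, gg_apply, smul_eq_mul, gn]

/-- The set of surviving variables. -/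
def surv : VV → Bool
  | inl 0 => true
  | inr 1 => true
  | inr 2 => true
  | _ => false

/-- No multiple of the witness by a monomial in the surviving variables lies in the fifth power. -/
lemma not_le (k : Fin 7 → ℕ) (hk : ∑ j, k j = 5) (c : VV →₀ ℕ)
    (hc : ∀ v, surv v = false → c v = 0) (h : ∑ j, k j • gg j ≤ c + ew) : False := by
  have hv : ∀ v, surv v = false → ∑ j, k j * gn j v ≤ ew v := by
    intro v hv
    have := h v
    rw [sum_gg_apply, Finsupp.add_apply, hc v hv, zero_add] at this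
    exact this
  have h0 := hv (inr 0) rfl
  have h1 := hv (inl 1) rfl
  have h2 := hv (inl 2) rfl
  have h3 := hv (inl 3) rfl
  have h4 := hv (inr 3) rfl
  simp only [Fin.sum_univ_seven, gn, eu, ev, wt, mm, ew_apply, en] at hk h0 h1 h2 h3 h4
  simp at h0 h1 h2 h3 h4
  omega

/-- Products of five generators dividing a variable times the witness. -/
def kk : VV → Fin 7 → ℕ
  | inl 1 => ![0, 0, 0, 0, 1, 3, 1]
  | inl 2 => ![0, 0, 0, 0, 1, 2, 2]
  | inl 3 => ![0, 0, 0, 0, 2, 0, 3]
  | inr 0 => ![1, 0, 0, 0, 0, 4, 0]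
  | inr 3 => ![0, 0, 0, 1, 0, 4, 0]
  | _ => ![0, 0, 0, 0, 0, 0, 0]

lemma kk_spec : ∀ v, surv v = false → (∑ j, kk v j = 5 ∧
    ∀ w, ∑ j, kk v j * gn j w ≤ (if v = w then 1 else 0) + en w) := by decide

end Pool.Agent.Helper48.WTree
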