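import Mathlib
import Pool.Agent.Helper48.WTree.Monomial

/-!
# Primes generated by variables
-/

set_option autoImplicit false

namespace Pool.Agent.Helper48.WTree

open MvPolynomial Sum

section

variable {V : Type} (K : Type*) [Field K]

/-- The prime generated by the variables not satisfying `p`. -/
noncomputable def qq (p : V → Prop) : Ideal (MvPolynomial V K) :=
  RingHom.ker (killCompl (R := K) (Subtype.val_injective (p := p)))

instance (p : V → Prop) : (qq K p).IsPrime := RingHom.ker_isPrime _

lemma mem_qq {p : V → Prop} {x : MvPolynomial V K} :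
    x ∈ qq K p ↔ ∀ m ∈ x.support, ∃ v, ¬ p v ∧ m v ≠ 0 := by
  rw [qq, RingHom.mem_ker]
  constructor
  · intro h m hm
    by_contra hcon
    push Not at hcon
    have hsub : (↑m.support : Set V) ⊆ Set.range (Subtype.val : {v // p v} → V) := by
      intro v hv
      rw [Subtype.range_coe_subtype, Set.mem_ofPred_eq]
      by_contra hpv
      exact (Finsupp.mem_support_iff.1 hv) (hcon v hpv)
    have h1 := Finsupp.mapDomain_comapDomain _ (Subtype.val_injective (p := p)) m hsub
    have h2 := congrArg (coeff (m.comapDomain Subtype.val Subtype.val_injective.injOn)) h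
    have h3 : coeff (m.comapDomain Subtype.val Subtype.val_injective.injOn)
        (killCompl (R := K) (Subtype.val_injective (p := p)) x) = coeff m x := by
      rw [coeff_killCompl, h1]
    rw [coeff_zero] at h2
    exact (mem_support_iff.1 hm) (h3.symm.trans h2)
  · intro h
    ext s
    rw [coeff_zero]
    have h3 : coeff s (killCompl (R := K) (Subtype.val_injective (p := p)) x) =
        coeff (s.mapDomain Subtype.val) x := coeff_killCompl _
    refine h3.trans ?_
    by_contra hne
    obtain ⟨v, hv, hv2⟩ := h _ (mem_support_iff.2 hne)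
    apply hv2
    apply Finsupp.mapDomain_of_notMem_range
    rw [Subtype.range_coe_subtype, Set.mem_ofPred_eq]
    exact hv

lemma X_mem_qq {p : V → Prop} {v : V} (hv : ¬ p v) : (X v : MvPolynomial V K) ∈ qq K p := by
  rw [mem_qq]
  intro m hm
  classical
  rw [X, support_monomial] at hm
  split_ifs at hm with h
  · simp at hm
  · rw [Finset.mem_singleton] at hm
    exact ⟨v, hv, by simp [hm]⟩

lemma X_notMem_qq {p : V → Prop} {v : V} (hv : p v) : (X v : MvPolynomial V K) ∉ qq K p := by
  rw [mem_qq]
  intro h
  classical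
  obtain ⟨w, hw, hw2⟩ := h (Finsupp.single v 1) (by
    rw [mem_support_iff, coeff_X, if_pos rfl]; exact one_ne_zero)
  rw [Finsupp.single_apply] at hw2
  split_ifs at hw2 with h1
  · rw [h1] at hv; exact hw hv
  · exact hw2 rfl

lemma qq_mono {p p' : V → Prop} (h : ∀ v, p' v → p v) : qq K p ≤ qq K p' := by
  intro x hx
  rw [mem_qq] at hx ⊢
  intro m hm
  obtain ⟨v, hv, hv2⟩ := hx m hm
  exact ⟨v, fun h' => hv (h v h'), hv2⟩

lemma qq_lt {p p' : V → Prop} (h : ∀ v, p' v → p v) {v : V} (hv : p v) (hv' : ¬ p' v) :
    qq K p < qq K p' :=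
  lt_of_le_of_ne (qq_mono K h) (fun he => X_notMem_qq K hv (he ▸ X_mem_qq K hv'))

lemma ringKrullDim_qq [Finite V] (p : V → Prop) :
    ringKrullDim (MvPolynomial V K ⧸ qq K p) = (Nat.card {v // p v} : ℕ) := by
  have hs : Function.Surjective (killCompl (R := K) (Subtype.val_injective (p := p))) := by
    intro x
    exact ⟨rename Subtype.val x, killCompl_rename_app _ x⟩
  have e : (MvPolynomial V K ⧸ qq K p) ≃+* MvPolynomial {v // p v} K :=
    RingHom.quotientKerEquivOfSurjective (f := (killCompl (R := K)
      (Subtype.val_injective (p := p))).toRingHom) hs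
  rw [ringKrullDim_eq_of_ringEquiv e, MvPolynomial.ringKrullDim_of_isNoetherianRing,
    ringKrullDim_eq_zero_of_field, zero_add]

lemma qq_false_isMaximal : (qq K (fun _ : V => False)).IsMaximal := by
  have h : qq K (fun _ : V => False) = RingHom.ker (constantCoeff : MvPolynomial V K →+* K) := by
    ext x
    rw [mem_qq, RingHom.mem_ker, constantCoeff_eq]
    constructor
    · intro h
      by_contra hne
      obtain ⟨v, -, hv⟩ := h 0 (mem_support_iff.2 hne)
      exact hv rfl
    · intro h m hm
      by_contra hcon
      push Not at hcon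
      have : m = 0 := by ext v; exact hcon v trivial
      rw [this] at hm
      exact (mem_support_iff.1 hm) h
  rw [h]
  exact RingHom.ker_isMaximal_of_surjective _ (fun a => ⟨C a, constantCoeff_C _ a⟩)

end

/-! ### The primes of the example -/

/-- The rank function defining the long chain. -/
def rk : VV → ℕ
  | inl 0 => 1
  | inr 1 => 2
  | inr 2 => 3
  | inr 3 => 4
  | _ => 0

/-- The embedded prime. -/
noncomputable def PP (K : Type*) [Field K] : Ideal (MvPolynomial VV K) := qq K (fun v => surv v = true)

instance (K : Type*) [Field K] : (PP K).IsPrime := by unfold PP; infer_instance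

/-- The fifth power of the edge ideal. -/
noncomputable abbrev JJ (K : Type*) [Field K] : Ideal (MvPolynomial VV K) := (edgeIdeal exG exω K) ^ 5

lemma JJ_le (K : Type*) [Field K] : JJ K ≤ qq K (fun v => 0 < rk v) := by
  refine (Ideal.pow_le_self (by norm_num)).trans ?_
  rw [edgeIdeal, Ideal.span_le]
  rintro _ ⟨u, v, h, rfl⟩
  have h1 : 0 < exω s(u, v) := ex_admissible.pos _ h
  have h2 : ¬ (0 < rk u) ∨ ¬ (0 < rk v) := by
    revert u v; decide
  refine Ideal.pow_mem_of_mem _ ?_ _ h1
  rcases h2 with h2 | h2
  · exact Ideal.mul_mem_right _ _ (X_mem_qq K h2)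
  · exact Ideal.mul_mem_left _ _ (X_mem_qq K h2)

/-- The colon ideal of the witness. -/
lemma colon_eq (K : Type*) [Field K] (g : MvPolynomial VV K) :
    g * monomial ew 1 ∈ JJ K ↔ g ∈ PP K := by
  constructor
  · intro h
    rw [PP, mem_qq]
    intro c hc
    have h1 : g * monomial ew 1 ∈
        Ideal.span ((fun e => monomial e (1 : K)) '' expSet gg 5) := by
      apply pow_le_monomials
      rw [← edgeIdeal_eq]
      exact h
    rw [mem_ideal_span_monomial_image] at h1
    have h2 : c + ew ∈ (g * monomial ew (1 : K)).support := by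
      rw [mem_support_iff, coeff_mul_monomial, mul_one]
      exact mem_support_iff.1 hc
    obtain ⟨e, ⟨k, hk, rfl⟩, he⟩ := h1 _ h2
    by_contra hcon
    push Not at hcon
    exact not_le k hk c (fun v hv => hcon v (by simp [hv])) he
  · intro h
    -- reduce to monomials
    rw [PP, mem_qq] at h
    rw [g.as_sum, Finset.sum_mul]
    refine Ideal.sum_mem _ fun c hc => ?_
    obtain ⟨v, hv, hcv⟩ := h c hc
    have hvar : monomial (Finsupp.single v 1 + ew) (1 : K) ∈ JJ K := by
      rw [JJ, edgeIdeal_eq]
      obtain ⟨h4, h5⟩ := kk_spec v (by simpa using hv)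
      refine monomial_mem_pow gg 5 _ (kk v) h4 (fun w => ?_)
      rw [sum_gg_apply, Finsupp.add_apply, Finsupp.single_apply, ew_apply]
      exact h5 w
    have h3 : monomial c (coeff c g) * monomial ew 1 =
        monomial (c - Finsupp.single v 1) (coeff c g) * monomial (Finsupp.single v 1 + ew) 1 := by
      rw [monomial_mul, monomial_mul, mul_one, ← add_assoc, tsub_add_cancel_of_le]
      rw [Finsupp.single_le_iff]
      exact Nat.one_le_iff_ne_zero.2 hcv
    rw [h3]
    exact Ideal.mul_mem_left _ _ hvar

end Pool.Agent.Helper48.WTree
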