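import Mathlib
import Pool.Agent.Helper48.WTree.Depth
import Pool.Agent.Helper48.WTree.Primes

/-!
# The fifth power is not Cohen-Macaulay
-/

set_option autoImplicit false

namespace Pool.Agent.Helper48.WTree

open MvPolynomial Sum IsLocalRing

/-- A Noetherian local ring of dimension `≥ d` with an associated prime which starts only chains of
length `< d` is not Cohen-Macaulay. -/
lemma not_isCMLocal {B : Type*} [CommRing B] [IsLocalRing B] [IsNoetherianRing B] (d : ℕ)
    (hd : (d : WithBot ℕ∞) ≤ ringKrullDim B) (P : Ideal B) (hP : IsAssociatedPrime P B)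
    (hs : ∀ s : LTSeries (PrimeSpectrum B), s.head.asIdeal = P → s.length < d) : ¬ IsCMLocal B := by
  rintro ⟨rs, h1, h2, h3⟩
  obtain ⟨s, hs1, hs2⟩ := exists_chain rs B h1 h2.toIsWeaklyRegular P hP
  have h4 := hs s hs2
  rw [← h3, hs1.symm] at hd
  have : d ≤ s.length := by exact_mod_cast hd
  omega

section

variable (K : Type*) [Field K]

/-- The quotient ring. -/
abbrev QQ : Type _ := MvPolynomial VV K ⧸ JJ K

/-- The long chain of primes. -/
noncomputable def chainR : LTSeries (PrimeSpectrum.zeroLocus (R := MvPolynomial VV K) (JJ K)) where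
  length := 4
  toFun i := ⟨⟨qq K (fun v => i.val < rk v), inferInstance⟩, by
    rw [PrimeSpectrum.mem_zeroLocus, SetLike.coe_subset_coe]
    exact (JJ_le K).trans (qq_mono K (fun v hv => by omega))⟩
  step i := by
    have h : ∃ v : VV, rk v = i.val + 1 := by
      revert i; decide
    obtain ⟨v, hv⟩ := h
    show (⟨qq K (fun v => i.castSucc.val < rk v), inferInstance⟩ : PrimeSpectrum _) <
      ⟨qq K (fun v => i.succ.val < rk v), inferInstance⟩
    rw [← PrimeSpectrum.asIdeal_lt_asIdeal]
    refine qq_lt K (fun w hw => ?_) (v := v) ?_ ?_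
    · simp only [Fin.val_succ, Fin.val_castSucc] at hw ⊢; omega
    · simp only [Fin.val_castSucc]; omega
    · simp only [Fin.val_succ]; omega

/-- The homogeneous maximal ideal of the polynomial ring. -/
noncomputable abbrev MR : Ideal (MvPolynomial VV K) := qq K (fun v => 4 < rk v)

lemma MR_isMaximal : (MR K).IsMaximal := by
  have h : (fun v : VV => 4 < rk v) = fun _ => False := by
    funext v
    have : ¬ 4 < rk v := by revert v; decide
    exact propext ⟨fun h => this h, False.elim⟩
  rw [MR, h]
  exact qq_false_isMaximal K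

lemma JJ_le_MR : JJ K ≤ MR K := (JJ_le K).trans (qq_mono K (fun v hv => by omega))

lemma JJ_le_PP : JJ K ≤ PP K := (JJ_le K).trans (qq_mono K (by decide))

lemma PP_le_MR : PP K ≤ MR K := qq_mono K (by decide)

/-- The maximal ideal of the quotient. -/
noncomputable def MQ : Ideal (QQ K) := (MR K).map (Ideal.Quotient.mk (JJ K))

/-- The embedded prime of the quotient. -/
noncomputable def PQ : Ideal (QQ K) := (PP K).map (Ideal.Quotient.mk (JJ K))

lemma comap_MQ : (MQ K).comap (Ideal.Quotient.mk (JJ K)) = MR K := by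
  rw [MQ, Ideal.comap_map_of_surjective _ Ideal.Quotient.mk_surjective, ← RingHom.ker_eq_comap_bot,
    Ideal.mk_ker]
  exact sup_eq_left.2 (JJ_le_MR K)

lemma comap_PQ : (PQ K).comap (Ideal.Quotient.mk (JJ K)) = PP K := by
  rw [PQ, Ideal.comap_map_of_surjective _ Ideal.Quotient.mk_surjective, ← RingHom.ker_eq_comap_bot,
    Ideal.mk_ker]
  exact sup_eq_left.2 (JJ_le_PP K)

instance MQ_isMaximal : (MQ K).IsMaximal := by
  have := MR_isMaximal K
  refine (Ideal.map_eq_top_or_isMaximal_of_surjective _ Ideal.Quotient.mk_surjective this).resolve_left ?_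
  intro h
  apply this.ne_top
  rw [← comap_MQ, MQ, h, Ideal.comap_top]

instance PQ_isPrime : (PQ K).IsPrime :=
  Ideal.map_isPrime_of_surjective Ideal.Quotient.mk_surjective (by
    rw [Ideal.mk_ker]; exact JJ_le_PP K)

lemma PQ_le_MQ : PQ K ≤ MQ K := Ideal.map_mono (PP_le_MR K)

lemma PQ_assoc : IsAssociatedPrime (PQ K) (QQ K) := by
  rw [isAssociatedPrime_iff]
  refine ⟨inferInstance, Ideal.Quotient.mk (JJ K) (monomial ew 1), ?_⟩
  ext a
  obtain ⟨g, rfl⟩ := Ideal.Quotient.mk_surjective a
  rw [Submodule.mem_colon_singleton, Submodule.mem_bot, smul_eq_mul, ← map_mul,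
    Ideal.Quotient.eq_zero_iff_mem, colon_eq, ← comap_PQ, Ideal.mem_comap]

lemma height_MQ : (4 : ℕ∞) ≤ (MQ K).height := by
  have hh := PrimeSpectrum.height_eq_orderHeight (⟨MQ K, inferInstance⟩ : PrimeSpectrum (QQ K))
  let e := (Ideal.primeSpectrumQuotientOrderIsoZeroLocus (JJ K)).symm
  let s : LTSeries (PrimeSpectrum (QQ K)) := (chainR K).map e e.strictMono
  have hs : s.length = 4 := rfl
  have hlast : s.last ≤ (⟨MQ K, inferInstance⟩ : PrimeSpectrum (QQ K)) := by
    show e (chainR K).last ≤ _
    rw [← e.symm.le_iff_le, OrderIso.symm_apply_apply]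
    show (chainR K).last ≤ (Ideal.primeSpectrumQuotientOrderIsoZeroLocus (JJ K)) ⟨MQ K, inferInstance⟩
    rw [← Subtype.coe_le_coe, ← PrimeSpectrum.asIdeal_le_asIdeal]
    show MR K ≤ (MQ K).comap (Ideal.Quotient.mk (JJ K))
    rw [comap_MQ]
  have := Order.length_le_height (p := s) hlast
  rw [hs, ← hh] at this
  exact this

/-- The local ring at the homogeneous maximal ideal. -/
abbrev BB : Type _ := Localization.AtPrime (MQ K)

instance : IsNoetherianRing (BB K) := IsLocalization.isNoetherianRing (MQ K).primeCompl _ inferInstance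

lemma exists_PB : ∃ P : Ideal (BB K), IsAssociatedPrime P (BB K) ∧
    P.comap (algebraMap (QQ K) (BB K)) = PQ K := by
  have hdisj : Disjoint ((MQ K).primeCompl : Set (QQ K)) (PQ K : Set (QQ K)) := by
    rw [Set.disjoint_left]
    intro a ha ha'
    exact ha (PQ_le_MQ K ha')
  refine ⟨(PQ K).map (algebraMap (QQ K) (BB K)), ?_, ?_⟩
  · have h := Module.associatedPrimes.preimage_comap_associatedPrimes_eq_associatedPrimes_of_isLocalizedModule
      (MQ K).primeCompl (BB K) (Algebra.linearMap (QQ K) (BB K))
    have h2 : (PQ K).map (algebraMap (QQ K) (BB K)) ∈ associatedPrimes (BB K) (BB K) := by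
      rw [← h]
      show ((PQ K).map (algebraMap (QQ K) (BB K))).comap (algebraMap (QQ K) (BB K)) ∈
        associatedPrimes (QQ K) (QQ K)
      have h3 := IsLocalization.under_map_of_isPrime_disjoint (MQ K).primeCompl (BB K)
        (PQ_isPrime K) hdisj
      rw [Ideal.under] at h3
      rw [h3]
      exact PQ_assoc K
    exact h2
  · exact IsLocalization.under_map_of_isPrime_disjoint (MQ K).primeCompl (BB K)
      (PQ_isPrime K) hdisj

lemma chain_bound (P : Ideal (BB K)) (hP : P.comap (algebraMap (QQ K) (BB K)) = PQ K)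
    (s : LTSeries (PrimeSpectrum (BB K))) (hs : s.head.asIdeal = P) : s.length < 4 := by
  let f : PrimeSpectrum (BB K) → PrimeSpectrum (MvPolynomial VV K) := fun x =>
    PrimeSpectrum.comap (Ideal.Quotient.mk (JJ K)) (PrimeSpectrum.comap (algebraMap (QQ K) (BB K)) x)
  have hf : StrictMono f := by
    have h1 : Monotone f := fun x y h => by
      rw [← PrimeSpectrum.asIdeal_le_asIdeal] at h ⊢
      exact Ideal.comap_mono (Ideal.comap_mono h)
    refine h1.strictMono_of_injective ?_
    exact (PrimeSpectrum.comap_injective_of_surjective _ Ideal.Quotient.mk_surjective).comp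
      (PrimeSpectrum.localization_comap_injective (BB K) (MQ K).primeCompl)
  let s' : LTSeries (PrimeSpectrum (MvPolynomial VV K)) := s.map f hf
  have hhead : s'.head.asIdeal = PP K := by
    show (f s.head).asIdeal = PP K
    show Ideal.comap _ (Ideal.comap _ s.head.asIdeal) = PP K
    rw [hs, hP, comap_PQ]
  -- all terms lie above `PP K`
  have hmem : ∀ i, s' i ∈ PrimeSpectrum.zeroLocus (R := MvPolynomial VV K) (PP K) := by
    intro i
    rw [PrimeSpectrum.mem_zeroLocus, SetLike.coe_subset_coe, ← hhead,
      PrimeSpectrum.asIdeal_le_asIdeal]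
    exact LTSeries.head_le s' i
  let s'' : LTSeries (PrimeSpectrum.zeroLocus (R := MvPolynomial VV K) (PP K)) :=
    { length := s'.length
      toFun := fun i => ⟨s' i, hmem i⟩
      step := fun i => s'.step i }
  have h1 := Order.LTSeries.length_le_krullDim s''
  have hdim : ringKrullDim (MvPolynomial VV K ⧸ PP K) =
      (Nat.card {v : VV // surv v = true} : ℕ) := ringKrullDim_qq K _
  rw [← ringKrullDim_quotient, hdim] at h1
  have h2 : Nat.card {v : VV // surv v = true} = 3 := by
    rw [Nat.card_eq_fintype_card]; decide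
  rw [h2] at h1
  have h3 : s.length ≤ 3 := by exact_mod_cast h1
  omega

/-- The local ring at the homogeneous maximal ideal is not Cohen-Macaulay. -/
theorem not_cm_local : ¬ IsCMLocal (BB K) := by
  obtain ⟨P, hP1, hP2⟩ := exists_PB K
  refine not_isCMLocal 4 ?_ P hP1 (fun s hs => chain_bound K P hP2 s hs)
  rw [IsLocalization.AtPrime.ringKrullDim_eq_height (MQ K) (BB K)]
  exact WithBot.coe_le_coe.2 (height_MQ K)

/-- The fifth power of the edge ideal is not Cohen-Macaulay. -/
theorem not_cm : ¬ IsCM (MvPolynomial VV K ⧸ (edgeIdeal exG exω K) ^ 5) := by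
  rintro ⟨-, h⟩
  exact not_cm_local K (h (MQ K))

end

end Pool.Agent.Helper48.WTree
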